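import Mathlib

/-! Connected noninvolutory quandles with many good involutions.

For `n = k + 5` let `R` be the set of pairs `(σ, f)` of a 3-cycle `σ` of `n` points and a `k`-tuple
`f` of distinct points fixed by `σ`, with `(σ, f) * (τ, g) = (τ σ τ⁻¹, τ ∘ f)`.  The translations
generate the alternating group, which is transitive on `R`.  Every involution `π` of the index set
of the tuples gives a good involution `(σ, f) ↦ (σ⁻¹, f ∘ π)`. -/

set_option autoImplicit false

namespace Pool.Agent.Results.MP_f5f603_al.ManyGoodInvolutions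

open Equiv Equiv.Perm

variable {R : Type}

/-- The operation `op x y = x * y` is a quandle operation. -/
structure IsQuandle (op : R → R → R) : Prop where
  idem : ∀ x, op x x = x
  bij : ∀ y, Function.Bijective (fun x => op x y)
  distrib : ∀ x y z, op (op x y) z = op (op x z) (op y z)

/-- The right translation `s_y : x ↦ x * y`, a permutation of `R`. -/
noncomputable def IsQuandle.translation {op : R → R → R} (h : IsQuandle op) (y : R) : Perm R :=
  Equiv.ofBijective (fun x => op x y) (h.bij y)

/-- The group generated by the right translations acts transitively. -/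
def IsQuandle.Connected {op : R → R → R} (h : IsQuandle op) : Prop :=
  ∀ x y : R, ∃ g ∈ Subgroup.closure (Set.range h.translation), g x = y

/-- `(x * y) * y = x` for all `x, y`. -/
def Involutory (op : R → R → R) : Prop := ∀ x y, op (op x y) y = x

/-- `ρ` is a good involution: `ρ ∘ ρ = id`, `ρ (x * y) = ρ x * y` and `s_{ρ y} = s_y⁻¹`. -/
structure IsQuandle.GoodInvolution {op : R → R → R} (h : IsQuandle op) (ρ : R → R) : Prop where
  invol : ∀ x, ρ (ρ x) = x
  equivariant : ∀ x y, ρ (op x y) = op (ρ x) y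
  inverse : ∀ x y, op x (ρ y) = (h.translation y).symm x

/-! ## The example -/

/-- 3-cycles together with a tuple of distinct fixed points -/
def Q (k : ℕ) : Type :=
  {x : Perm (Fin (k + 5)) × (Fin k ↪ Fin (k + 5)) // x.1.IsThreeCycle ∧ ∀ i, x.1 (x.2 i) = x.2 i}

variable {k : ℕ}

lemma isThreeCycle_conj {n : ℕ} {σ : Perm (Fin n)} (h : σ.IsThreeCycle) (g : Perm (Fin n)) :
    (g * σ * g⁻¹).IsThreeCycle := by
  unfold IsThreeCycle at *
  rw [cycleType_conj, h]

/-- the diagonal action -/
def act (g : Perm (Fin (k + 5))) (x : Q k) : Q k :=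
  ⟨(g * x.1.1 * g⁻¹, x.1.2.trans g.toEmbedding), isThreeCycle_conj x.2.1 g, fun i => by
    simp [x.2.2 i]⟩

lemma Q.ext {x y : Q k} (h1 : x.1.1 = y.1.1) (h2 : ∀ i, x.1.2 i = y.1.2 i) : x = y := by
  apply Subtype.ext
  apply Prod.ext h1
  ext i
  rw [h2]

lemma act_mul (g h : Perm (Fin (k + 5))) (x : Q k) : act (g * h) x = act g (act h x) := by
  apply Q.ext
  · simp [act, mul_assoc]
  · intro i
    simp [act]

lemma act_one (x : Q k) : act 1 x = x := by
  apply Q.ext
  · simp [act]
  · intro i
    simp [act]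

/-- the action as a homomorphism -/
def actHom (k : ℕ) : Perm (Fin (k + 5)) →* Perm (Q k) where
  toFun g := ⟨act g, act g⁻¹, fun x => by rw [← act_mul, inv_mul_cancel, act_one],
    fun x => by rw [← act_mul, mul_inv_cancel, act_one]⟩
  map_one' := by
    ext x : 1
    exact act_one x
  map_mul' g h := by
    ext x : 1
    exact act_mul g h x

/-- the quandle operation -/
def op (x y : Q k) : Q k := act y.1.1 x

lemma isQuandle_op : IsQuandle (op (k := k)) where
  idem x := by
    apply Q.ext
    · simp [op, act]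
    · intro i
      simp [op, act, x.2.2 i]
  bij y := (actHom k y.1.1).bijective
  distrib x y z := by
    unfold op
    rw [← act_mul, ← act_mul]
    congr 1
    simp [act]

lemma translation_eq (y : Q k) : (isQuandle_op (k := k)).translation y = actHom k y.1.1 := by
  ext x : 1
  rfl

lemma exists_tuple (τ : Perm (Fin (k + 5))) (h : τ.IsThreeCycle) :
    ∃ f : Fin k ↪ Fin (k + 5), ∀ i, τ (f i) = f i := by
  have h1 : Fintype.card (Fin k) ≤ Fintype.card {a // a ∉ τ.support} := by
    rw [Fintype.card_subtype_compl, Fintype.card_fin, Fintype.card_fin]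
    have : Fintype.card {a // a ∈ τ.support} = 3 := by
      rw [Fintype.card_coe, h.card_support]
    omega
  obtain ⟨e⟩ := Function.Embedding.nonempty_of_card_le h1
  refine ⟨e.trans (Function.Embedding.subtype _), fun i => ?_⟩
  have := (e i).2
  simpa [Perm.mem_support] using this

lemma alternating_le :
    alternatingGroup (Fin (k + 5)) ≤
      (Subgroup.closure (Set.range (isQuandle_op (k := k)).translation)).comap (actHom k) := by
  rw [← closure_three_cycles_eq_alternating, Subgroup.closure_le]
  intro τ hτ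
  obtain ⟨f, hf⟩ := exists_tuple τ hτ
  apply Subgroup.subset_closure
  exact ⟨⟨(τ, f), hτ, hf⟩, translation_eq _⟩

/-- the tuple of `3 + k` distinct points given by `(σ, f)` and a moved point -/
lemma exists_embedding (x : Q k) : ∃ e : Fin (3 + k) ↪ Fin (k + 5),
    (∀ i : Fin k, e (Fin.natAdd 3 i) = x.1.2 i) ∧ ∃ a, a ∈ x.1.1.support ∧
    e (Fin.castAdd k 0) = a ∧ e (Fin.castAdd k 1) = x.1.1 a ∧
    e (Fin.castAdd k 2) = x.1.1 (x.1.1 a) := by
  obtain ⟨a, ha⟩ : x.1.1.support.Nonempty := by
    rw [← Finset.card_pos, x.2.1.card_support]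
    norm_num
  have hnd := (x.2.1.nodup_iff_mem_support (a := a)).2 ha
  have hsup := (x.2.1.support_eq_iff_mem_support (a := a)).2 ha
  simp only [List.nodup_cons, List.mem_cons, List.not_mem_nil, or_false, not_or,
    not_false_eq_true, List.nodup_nil, and_true] at hnd
  refine ⟨⟨Fin.append ![a, x.1.1 a, x.1.1 (x.1.1 a)] x.1.2, ?_⟩, ?_, a, ha, ?_, ?_, ?_⟩
  · rw [Fin.append_injective_iff]
    refine ⟨?_, x.1.2.injective, ?_⟩
    · intro i j hij
      obtain ⟨⟨h1, h2⟩, h3⟩ := hnd
      fin_cases i <;> fin_cases j <;> simp_all [Matrix.cons_val_zero, Matrix.cons_val_one]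
    · intro i j hij
      have h1 : x.1.2 j ∉ x.1.1.support := by
        rw [Perm.mem_support, not_not]
        exact x.2.2 j
      apply h1
      rw [hsup, ← hij]
      fin_cases i <;> simp
  · intro i
    simp
  · simp
  · simp
  · simp

/-- a 3-cycle with moved point `a` is determined by `σ a` and `σ (σ a)` -/
lemma threeCycle_ext {n : ℕ} {σ τ : Perm (Fin n)} (hσ : σ.IsThreeCycle) (hτ : τ.IsThreeCycle)
    {a : Fin n} (ha : a ∈ σ.support) (hb : a ∈ τ.support) (h1 : σ a = τ a)
    (h2 : σ (σ a) = τ (τ a)) : σ = τ := by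
  rw [(hσ.eq_swap_mul_swap_iff_mem_support).2 ha, (hτ.eq_swap_mul_swap_iff_mem_support).2 hb,
    h2, h1]

lemma connected : (isQuandle_op (k := k)).Connected := by
  intro x y
  obtain ⟨e, he, a, ha, h0, h1, h2⟩ := exists_embedding x
  obtain ⟨e', he', a', ha', h0', h1', h2'⟩ := exists_embedding y
  have htr := alternatingGroup.isMultiplyPretransitive (Fin (k + 5))
  have hc : Nat.card (Fin (k + 5)) - 2 = 3 + k := by
    rw [Nat.card_eq_fintype_card, Fintype.card_fin]
    omega
  rw [hc] at htr
  obtain ⟨g, hg⟩ := htr.exists_smul_eq e e'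
  have hg' : ∀ i, g.1 (e i) = e' i := fun i => by
    rw [← hg]
    rfl
  refine ⟨actHom k g.1, alternating_le g.2, ?_⟩
  apply Q.ext
  · change g.1 * x.1.1 * (g.1)⁻¹ = y.1.1
    have k0 : g.1 a = a' := by rw [← h0, hg', h0']
    have k1 : g.1 (x.1.1 a) = y.1.1 a' := by rw [← h1, hg', h1']
    have k2 : g.1 (x.1.1 (x.1.1 a)) = y.1.1 (y.1.1 a') := by rw [← h2, hg', h2']
    have ki : (g.1)⁻¹ a' = a := by rw [← k0]; simp
    have hv : (g.1 * x.1.1 * (g.1)⁻¹) a' = y.1.1 a' := by
      simp only [Perm.mul_apply]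
      rw [ki, k1]
    refine threeCycle_ext (isThreeCycle_conj x.2.1 _) y.2.1 ?_ ha' hv ?_
    · rw [Perm.mem_support, hv]
      exact Perm.mem_support.1 ha'
    · rw [hv]
      have ki' : (g.1)⁻¹ (y.1.1 a') = x.1.1 a := by
        rw [← k1]
        exact Equiv.symm_apply_apply g.1 _
      simp only [Perm.mul_apply]
      rw [ki', k2]
  · intro i
    change g.1 (x.1.2 i) = y.1.2 i
    rw [← he, hg', he']

lemma not_involutory : ¬ Involutory (op (k := k + 1)) := by
  intro h
  obtain ⟨τ, hτ⟩ : ∃ τ : Perm (Fin (k + 1 + 5)), τ.IsThreeCycle :=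
    ⟨_, Fin.isThreeCycle_cycleRange_two (n := k + 3)⟩
  obtain ⟨f, hf⟩ := exists_tuple τ hτ
  obtain ⟨a, ha⟩ : τ.support.Nonempty := by
    rw [← Finset.card_pos, hτ.card_support]
    norm_num
  let y : Q (k + 1) := ⟨(τ, f), hτ, hf⟩
  have h1 := congrArg (fun z : Q (k + 1) => z.1.2 0) (h (act (swap a (f 0)) y) y)
  have h2 : τ (τ (swap a (f 0) (f 0))) = swap a (f 0) (f 0) := h1
  rw [swap_apply_right] at h2
  have hnd := (hτ.nodup_iff_mem_support (a := a)).2 ha
  simp [h2] at hnd

/-- the good involution given by an involution of the index set -/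
def inv (π : Perm (Fin k)) (x : Q k) : Q k :=
  ⟨(x.1.1⁻¹, π.toEmbedding.trans x.1.2), x.2.1.inv, fun i => by
    rw [Perm.inv_eq_iff_eq]
    exact (x.2.2 _).symm⟩

lemma good (π : Perm (Fin k)) (hπ : ∀ i, π (π i) = i) :
    (isQuandle_op (k := k)).GoodInvolution (inv π) where
  invol x := by
    apply Q.ext
    · simp [inv]
    · intro i
      simp [inv, hπ]
  equivariant x y := by
    apply Q.ext
    · simp [inv, op, act, mul_assoc]
    · intro i
      simp [inv, op, act]
  inverse x y := by
    rw [translation_eq]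
    rfl

/-- **The answer is negative.** Not every connected noninvolutory quandle has at most one good
involution; moreover for every `m` there is a finite connected noninvolutory quandle with at
least `m` good involutions. -/
theorem result :
    (¬ ∀ (R : Type) (op : R → R → R) (h : IsQuandle op), h.Connected → ¬ Involutory op →
      ∀ ρ₁ ρ₂ : R → R, h.GoodInvolution ρ₁ → h.GoodInvolution ρ₂ → ρ₁ = ρ₂) ∧
    ∀ m : ℕ, ∃ (R : Type) (op : R → R → R) (h : IsQuandle op), Finite R ∧ h.Connected ∧
      ¬ Involutory op ∧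
      ∃ ρ : Fin m → R → R, Function.Injective ρ ∧ ∀ i, h.GoodInvolution (ρ i) := by
  have key : ∀ m : ℕ, ∃ (R : Type) (op : R → R → R) (h : IsQuandle op), Finite R ∧ h.Connected ∧
      ¬ Involutory op ∧
      ∃ ρ : Fin m → R → R, Function.Injective ρ ∧ ∀ i, h.GoodInvolution (ρ i) := by
    intro m
    refine ⟨Q (m + 1), op, isQuandle_op, ?_, connected, not_involutory,
      fun i => inv (swap 0 i.succ), ?_, fun i => good _ fun j => by simp⟩
    · unfold Q
      infer_instance
    · intro i j hij
      obtain ⟨τ, hτ⟩ : ∃ τ : Perm (Fin (m + 1 + 5)), τ.IsThreeCycle :=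
        ⟨_, Fin.isThreeCycle_cycleRange_two (n := m + 3)⟩
      obtain ⟨f, hf⟩ := exists_tuple τ hτ
      have h1 := congrArg (fun z : Q (m + 1) => z.1.2 0) (congrFun hij ⟨(τ, f), hτ, hf⟩)
      have h2 : f (swap 0 i.succ 0) = f (swap 0 j.succ 0) := h1
      rw [swap_apply_left, swap_apply_left] at h2
      exact Fin.succ_injective _ (f.injective h2)
  refine ⟨fun H => ?_, key⟩
  obtain ⟨R, op, h, -, hc, hi, ρ, hρ, hg⟩ := key 2
  have := hρ (H R op h hc hi _ _ (hg 0) (hg 1))
  exact absurd this (by decide)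

end Pool.Agent.Results.MP_f5f603_al.ManyGoodInvolutions
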